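import Pool.Agent.Run7.h520.LW.I2

/-!
# Pieces AT and AMAL
-/

set_option autoImplicit false
set_option linter.all false

namespace Run7.h228.LW
open Run7.h520.LW
open Classical

section

variable {M : Str ℕ} {Ω : Set ℕ} {b0 h : ℕ} {T U Q B A P W D : Finset ℕ}
  {σ : ℕ → ℕ → ℕ} {τ : ℕ → ℕ} {lp : ℕ → ℕ × List ℕ} {S : Str (ℕ ⊕ ℕ)} {t x y : ℕ} {l : ℕ × List ℕ}

theorem QU (c : Cfg M Ω b0 h T U Q B A P W D σ τ lp) : Q ⊆ U := by
  rw [← c.UB]; exact Finset.inter_subset_left

theorem QB (c : Cfg M Ω b0 h T U Q B A P W D σ τ lp) : Q ⊆ B := by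
  rw [← c.UB]; exact Finset.inter_subset_right

theorem QP (c : Cfg M Ω b0 h T U Q B A P W D σ τ lp) : Q ⊆ P := by
  rw [← c.UP]; exact Finset.inter_subset_right

theorem QW (c : Cfg M Ω b0 h T U Q B A P W D σ τ lp) : Q ⊆ W := (QP c).trans c.PW

theorem mem_Q (c : Cfg M Ω b0 h T U Q B A P W D σ τ lp) (h1 : x ∈ U) (h2 : x ∈ B) : x ∈ Q := by
  rw [← c.UB]; exact Finset.mem_inter.2 ⟨h1, h2⟩

theorem στ (c : Cfg M Ω b0 h T U Q B A P W D σ τ lp) (ht : t ∈ T) (h : x ∈ Q) : σ t x = τ x :=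
  c.σP t ht x (QP c h)

theorem th_B (h : x ∈ B) : th Q B σ τ t x = Sum.inl (σ t x) := by
  unfold th; rw [if_pos h]

theorem th_U (c : Cfg M Ω b0 h T U Q B A P W D σ τ lp) (ht : t ∈ T) (hx : x ∈ U) :
    th Q B σ τ t x = gl Q τ x := by
  unfold th
  split_ifs with hB
  · have hQ := mem_Q c hx hB
    unfold gl
    rw [if_pos hQ, στ c ht hQ]
  · rfl

theorem th_inr (c : Cfg M Ω b0 h T U Q B A P W D σ τ lp) (hx : x ∉ B) :
    th Q B σ τ t x = Sum.inr x := by
  unfold th
  rw [if_neg hx]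
  unfold gl
  rw [if_neg fun h => hx (QB c h)]

theorem σ_inj (c : Cfg M Ω b0 h T U Q B A P W D σ τ lp) (ht : t ∈ T) (hx : x ∈ W) (hy : y ∈ W)
    (h : σ t x = σ t y) : x = y := (c.emb t ht).inj x hx y hy h

/-- elements of `B` whose image is in the image of `U` -/
theorem th_mem_U (c : Cfg M Ω b0 h T U Q B A P W D σ τ lp) (ht : t ∈ T) (hxA : x ∈ A)
    (hx : th Q B σ τ t x ∈ U.image (gl Q τ)) : x ∈ U := by
  rcases Finset.mem_union.1 (c.AUB hxA) with h | h
  · exact h
  · rw [th_B h] at hx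
    obtain ⟨u, hu, e⟩ := Finset.mem_image.1 hx
    unfold gl at e
    split_ifs at e with hQ
    · injection e with e
      rw [← στ c ht hQ] at e
      have := σ_inj c ht (QW c hQ) (c.BW h) e
      rw [← this]; exact hu

theorem th_mem_D (c : Cfg M Ω b0 h T U Q B A P W D σ τ lp)
    (hx : th Q B σ τ t x ∈ D.image Sum.inl) : x ∈ B := by
  by_contra h
  rw [th_inr c h] at hx
  obtain ⟨u, _, e⟩ := Finset.mem_image.1 hx
  simp at e

theorem th_mem_ZZ (c : Cfg M Ω b0 h T U Q B A P W D σ τ lp) (ht : t ∈ T) (hxA : x ∈ A) :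
    th Q B σ τ t x ∈ D.image Sum.inl ∪ U.image (gl Q τ) := by
  rw [Finset.mem_union]
  by_cases hB : x ∈ B
  · left
    rw [th_B hB]
    exact Finset.mem_image_of_mem _ (c.σD t ht (Finset.mem_image_of_mem _ hB))
  · right
    have hU : x ∈ U := by
      rcases Finset.mem_union.1 (c.AUB hxA) with h | h
      · exact h
      · exact absurd h hB
    rw [th_U c ht hU]
    exact Finset.mem_image_of_mem _ hU

theorem σ_mem_D (c : Cfg M Ω b0 h T U Q B A P W D σ τ lp) (ht : t ∈ T) (h : x ∈ B) : σ t x ∈ D :=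
  c.σD t ht (Finset.mem_image_of_mem _ h)

theorem on_U (c : Cfg M Ω b0 h T U Q B A P W D σ τ lp) (s : GlS M T U Q B A D σ τ S) (ht : t ∈ T)
    (hx : x ∈ U) (hl : ∀ y ∈ l.2, y ∈ U) :
    S.On (th Q B σ τ t x) (l.1, l.2.map (th Q B σ τ t)) ↔ M.On x l := by
  have e : l.2.map (th Q B σ τ t) = l.2.map (gl Q τ) :=
    List.map_congr_left fun y hy => th_U c ht (hl y hy)
  rw [e, th_U c ht hx]
  exact s.eU.on x hx l hl

theorem on_B (c : Cfg M Ω b0 h T U Q B A P W D σ τ lp) (s : GlS M T U Q B A D σ τ S) (ht : t ∈ T)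
    (hx : x ∈ B) (hl : ∀ y ∈ l.2, y ∈ B) :
    S.On (th Q B σ τ t x) (l.1, l.2.map (th Q B σ τ t)) ↔ M.On x l := by
  have e : l.2.map (th Q B σ τ t) = (l.2.map (σ t)).map Sum.inl := by
    rw [List.map_map]
    exact List.map_congr_left fun y hy => th_B (hl y hy)
  rw [e, th_B hx, ← (c.emb t ht).on x (c.BW hx) l fun y hy => c.BW (hl y hy)]
  refine s.eD.on (σ t x) (σ_mem_D c ht hx) (l.1, l.2.map (σ t)) ?_
  intro y hy
  obtain ⟨z, hz, rfl⟩ := List.mem_map.1 hy
  exact σ_mem_D c ht (hl z hz)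

theorem R_cross (c : Cfg M Ω b0 h T U Q B A P W D σ τ lp) (s : GlS M T U Q B A D σ τ S) (ht : t ∈ T)
    (hxA : x ∈ A) (hyA : y ∈ A) (hxB : x ∈ B) (hxU : x ∉ U) (hyU : y ∈ U) (hyB : y ∉ B) :
    S.R (th Q B σ τ t x) (th Q B σ τ t y) ↔ M.R x y := by
  rw [th_B hxB, th_inr c hyB]
  have h1 : σ t x ∉ Q.image τ := by
    intro h
    obtain ⟨z, hz, e⟩ := Finset.mem_image.1 h
    rw [← στ c ht hz] at e
    have := σ_inj c ht (QW c hz) (c.BW hxB) e
    exact hxU (this ▸ QU c hz)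
  rw [s.R (σ t x) (σ_mem_D c ht hxB) h1 y hyU fun h => hyB (QB c h)]
  constructor
  · rintro ⟨-, -, s', hs', x', hx', -, -, -, hR, e⟩
    have : x' = x := by
      by_cases hst : s' = t
      · subst hst
        exact σ_inj c ht (c.BW (Finset.mem_inter.1 hx').2) (c.BW hxB) e
      · exact c.sep s' hs' t ht hst x' (Finset.mem_inter.1 hx').2 x hxB e
    subst this
    exact hR.symm
  · intro hR
    exact ⟨((c.emb t ht).pt x (c.BW hxB)).2 hR.1, hR.2.1, t, ht, x, Finset.mem_inter.2 ⟨hxA, hxB⟩, hxU,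
      Finset.mem_inter.2 ⟨hyA, hyU⟩, hyB, hR.symm, rfl⟩

theorem emb_th (c : Cfg M Ω b0 h T U Q B A P W D σ τ lp) (s : GlS M T U Q B A D σ τ S) (ht : t ∈ T) :
    Emb M S A (th Q B σ τ t) where
  inj := by
    intro x hx y hy e
    by_cases h1 : x ∈ B <;> by_cases h2 : y ∈ B
    · rw [th_B h1, th_B h2] at e
      injection e with e
      exact σ_inj c ht (c.BW h1) (c.BW h2) e
    · rw [th_B h1, th_inr c h2] at e
      simp at e
    · rw [th_inr c h1, th_B h2] at e
      simp at e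
    · rw [th_inr c h1, th_inr c h2] at e
      injection e
  pt := by
    intro x hx
    by_cases h1 : x ∈ B
    · rw [th_B h1, s.eD.pt _ (σ_mem_D c ht h1), (c.emb t ht).pt x (c.BW h1)]
    · have hU : x ∈ U := by
        rcases Finset.mem_union.1 (c.AUB hx) with h | h
        · exact h
        · exact absurd h h1
      rw [th_U c ht hU, s.eU.pt x hU]
  R := by
    intro x hx y hy
    by_cases h1 : x ∈ B <;> by_cases h2 : y ∈ B
    · rw [th_B h1, th_B h2, s.eD.R _ (σ_mem_D c ht h1) _ (σ_mem_D c ht h2),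
        (c.emb t ht).R x (c.BW h1) y (c.BW h2)]
    · have hyU : y ∈ U := by
        rcases Finset.mem_union.1 (c.AUB hy) with h | h
        · exact h
        · exact absurd h h2
      by_cases hxU : x ∈ U
      · rw [th_U c ht hxU, th_U c ht hyU, s.eU.R x hxU y hyU]
      · exact R_cross c s ht hx hy h1 hxU hyU h2
    · have hxU : x ∈ U := by
        rcases Finset.mem_union.1 (c.AUB hx) with h | h
        · exact h
        · exact absurd h h1
      by_cases hyU : y ∈ U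
      · rw [th_U c ht hxU, th_U c ht hyU, s.eU.R x hxU y hyU]
      · have := R_cross c s ht hy hx h2 hyU hxU h1
        exact ⟨fun h => (this.1 h.symm).symm, fun h => (this.2 h.symm).symm⟩
    · have hxU : x ∈ U := by
        rcases Finset.mem_union.1 (c.AUB hx) with h | h
        · exact h
        · exact absurd h h1
      have hyU : y ∈ U := by
        rcases Finset.mem_union.1 (c.AUB hy) with h | h
        · exact h
        · exact absurd h h2
      rw [th_U c ht hxU, th_U c ht hyU, s.eU.R x hxU y hyU]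
  on := by
    intro x hx l hl
    constructor
    · intro h
      have h1 : (l.1, l.2.map (th Q B σ τ t)) ∈ lin (D.image Sum.inl ∪ U.image (gl Q τ)) := by
        refine h.isLn fun z hz => ?_
        obtain ⟨y, hy, rfl⟩ := List.mem_map.1 hz
        exact th_mem_ZZ c ht (hl y hy)
      rcases s.t2.inc _ (th_mem_ZZ c ht hx) _ h1 h with ⟨h2, h3⟩ | ⟨h2, h3⟩
      · refine (on_B c s ht (th_mem_D c h2) fun y hy => ?_).1 h
        exact th_mem_D c ((mem_lin.1 h3).2.2 _ (List.mem_map_of_mem hy))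
      · refine (on_U c s ht (th_mem_U c ht hx h2) fun y hy => ?_).1 h
        exact th_mem_U c ht (hl y hy) ((mem_lin.1 h3).2.2 _ (List.mem_map_of_mem hy))
    · intro h
      have hA : A = (A ∩ U) ∪ (A ∩ B) := by
        rw [← Finset.inter_union_distrib_left]
        exact (Finset.inter_eq_left.2 c.AUB).symm
      have h1 : (x, l) ∈ M.ic ((A ∩ U) ∪ (A ∩ B)) := by
        rw [← hA, Str.mem_ic]
        exact ⟨hx, h.isLn hl, h⟩
      have h2 : (x, l) ∉ M.nic (A ∩ U) (A ∩ B) := by rw [c.noinc]; simp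
      unfold Str.nic at h2
      rw [Finset.mem_filter] at h2
      have h3 : (x, l) ∈ M.ic (A ∩ U) ∨ (x, l) ∈ M.ic (A ∩ B) := by
        by_contra h4
        rw [not_or] at h4
        exact h2 ⟨h1, h4⟩
      rcases h3 with h3 | h3
      · rw [Str.mem_ic] at h3
        exact (on_U c s ht (Finset.mem_inter.1 h3.1).2 fun y hy =>
          (Finset.mem_inter.1 ((mem_lin.1 h3.2.1).2.2 y hy)).2).2 h
      · rw [Str.mem_ic] at h3
        exact (on_B c s ht (Finset.mem_inter.1 h3.1).2 fun y hy =>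
          (Finset.mem_inter.1 ((mem_lin.1 h3.2.1).2.2 y hy)).2).2 h

end

theorem AT : S_AT := by
  intro M Ω b0 h T U Q B A P W D σ τ lp c S s t ht
  refine ⟨emb_th c s ht, ?_, ?_⟩
  · ext x
    unfold prD
    rw [Finset.mem_filter, Finset.mem_image, Finset.mem_image]
    constructor
    · rintro ⟨hx, a, ha, e⟩
      by_cases hB : a ∈ B
      · rw [th_B hB] at e
        injection e with e
        exact ⟨a, Finset.mem_inter.2 ⟨ha, hB⟩, e⟩
      · rw [th_inr c hB] at e
        simp at e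
    · rintro ⟨a, ha, rfl⟩
      have hB := (Finset.mem_inter.1 ha).2
      exact ⟨σ_mem_D c ht hB, a, (Finset.mem_inter.1 ha).1, th_B hB⟩
  · ext x
    unfold prU
    rw [Finset.mem_filter, Finset.mem_image, Finset.mem_inter]
    constructor
    · rintro ⟨hx, a, ha, e⟩
      have haU : a ∈ U := by
        refine th_mem_U c ht ha ?_
        rw [e]
        exact Finset.mem_image_of_mem _ hx
      rw [th_U c ht haU] at e
      have := s.eU.inj a haU x hx e
      exact ⟨this ▸ ha, hx⟩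
    · rintro ⟨hxA, hxU⟩
      exact ⟨hxU, x, hxA, th_U c ht hxU⟩

theorem AMAL : S_EMB → S_CLO → S_GLUE → S_KZ → S_AT → S_ATC → S_AMAL := by
  intro hE hC hG hK hAT hATC M Ω b0 h T U Q B A P W D σ τ lp c
  have hamb := c.rich.amb
  obtain ⟨t0, ht0⟩ := c.ne
  have hQΩ : M.Cl Q Ω := by
    have := hC.inter hamb c.cU c.cB
    rwa [c.UB] at this
  have hQτ : Emb M M Q τ :=
    hE.congr (hE.mono (c.emb t0 ht0) (QW c)) fun x hx => (στ c ht0 hx).symm
  have himg : Q.image τ = Q.image (σ t0) :=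
    Finset.image_congr fun x hx => (στ c ht0 (Finset.mem_coe.1 hx)).symm
  have hQi : M.Cl (Q.image τ) Ω := by
    rw [himg]
    exact hC.trans hamb ((hE.cl (c.emb t0 ht0) (QW c)).2 (hQΩ.down (QW c) c.cW.1)) (c.img t0 ht0)
  have hQD : Q.image τ ⊆ D := by
    refine Finset.Subset.trans ?_ c.PD
    have := Finset.image_subset_image (f := τ) (QP c)
    rwa [c.τP] at this
  obtain ⟨S, s1, s2, s3, s4, s5⟩ := hG M M D Q U τ (nE M T U B A σ) (c.rich.k.c1.mono c.cD.sub)
    (c.rich.k.c1.mono c.cU.sub) (hQΩ.down (QU c) c.cU.1) hQτ (hQi.down hQD c.cD.1)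
  have s : GlS M T U Q B A D σ τ S := ⟨s1, s2, s3, s4, s5⟩
  obtain ⟨k1, k2⟩ := hK c S s
  obtain ⟨ψ0, p1, p2, p3⟩ := hE.inv s1
  obtain ⟨ψ', r1, r2, r3⟩ := c.rich.rich (ℕ ⊕ ℕ) S (D.image Sum.inl) (ZZ U Q D τ) k1 k2 ψ0 p2
    (by rw [p3]; exact c.cD)
  have hψD : ∀ x ∈ D, ψ' (Sum.inl x) = x := fun x hx => by
    rw [r2 _ (Finset.mem_image_of_mem _ hx), p1 x hx]
  refine ⟨fun x => ψ' (gl Q τ x), ?_, ?_⟩
  · intro x hx
    show ψ' (gl Q τ x) = τ x
    unfold gl
    rw [if_pos hx]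
    exact hψD _ (hQD (Finset.mem_image_of_mem _ hx))
  · intro t ht
    have hf : ∀ x ∈ A, (if x ∈ B then σ t x else ψ' (gl Q τ x)) = (ψ' ∘ th Q B σ τ t) x := by
      intro x hx
      by_cases hB : x ∈ B
      · rw [if_pos hB, Function.comp_apply, th_B hB, hψD _ (σ_mem_D c ht hB)]
      · rw [if_neg hB, Function.comp_apply]
        unfold th
        rw [if_neg hB]
    have a1 := (hAT c S s t ht).1
    have a2 := hATC c S s t ht
    have a3 : A.image (th Q B σ τ t) ⊆ ZZ U Q D τ := Finset.coe_subset.1 a2.sub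
    refine ⟨hE.congr (hE.comp a1 (hE.mono r1 a3)) hf, ?_⟩
    have e : (A.image fun x => if x ∈ B then σ t x else ψ' (gl Q τ x)) =
        (A.image (th Q B σ τ t)).image ψ' := by
      rw [Finset.image_image]
      exact Finset.image_congr fun x hx => hf x (Finset.mem_coe.1 hx)
    rw [e]
    exact hC.trans hamb ((hE.cl r1 a3).2 a2) r3

end Run7.h228.LW
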