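import Pool.Agent.Run7.h520.LW.I

/-!
# Piece EX, part 1: the finite structures (a line, points on it, and a star)
-/

set_option autoImplicit false
set_option linter.all false

namespace Run7.h228.LW
open Run7.h520.LW
open Classical

inductive VX : Type
  | s : ℕ → VX
  | b : ℕ → VX
  | x : VX

noncomputable instance : DecidableEq VX := Classical.decEq _

instance : Nonempty VX := ⟨VX.x⟩

/-- the letters of level `j` -/
noncomputable def seg (j : ℕ) : List VX := (List.range (g j)).map VX.s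

/-- points -/
def IsPt : VX → Prop
  | VX.s _ => False
  | VX.b _ => True
  | VX.x => True

@[simp] theorem isPt_s (i : ℕ) : IsPt (VX.s i) ↔ False := Iff.rfl
@[simp] theorem isPt_b (i : ℕ) : IsPt (VX.b i) ↔ True := Iff.rfl
@[simp] theorem isPt_x : IsPt VX.x ↔ True := Iff.rfl

noncomputable def HS (k : ℕ) : Str VX where
  pt := IsPt
  adj u v := u = VX.x ∧ ∃ i, i < k ∧ v = VX.b i
  inc _ L := ∃ i ≤ k, L = seg i

theorem seg_length (j : ℕ) : (seg j).length = g j := by simp [seg]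

theorem seg_nodup (j : ℕ) : (seg j).Nodup := by
  unfold seg
  exact List.Nodup.map (fun a b h => by injection h) List.nodup_range

theorem mem_seg {j : ℕ} {v : VX} : v ∈ seg j ↔ ∃ i < g j, v = VX.s i := by
  unfold seg
  rw [List.mem_map]
  constructor
  · rintro ⟨i, hi, rfl⟩; exact ⟨i, List.mem_range.1 hi, rfl⟩
  · rintro ⟨i, hi, rfl⟩; exact ⟨i, List.mem_range.2 hi, rfl⟩

theorem seg_take {i j : ℕ} (h : i ≤ j) : (seg j).take (g i) = seg i := by
  unfold seg
  rw [← List.map_take, List.take_range, min_eq_left (g_strictMono.monotone h)]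

variable {k : ℕ}

theorem on_iff {v : VX} {l : ℕ × List VX} :
    (HS k).On v l ↔ IsPt v ∧ l.1 ≤ k ∧ l.2 = seg l.1 := by
  constructor
  · rintro ⟨h1, h2, h3, h4, h5⟩
    obtain ⟨i, hi, e⟩ := h5 l.1 le_rfl
    rw [List.take_of_length_le h2.le] at e
    have h6 : g i = g l.1 := by rw [← h2, e, seg_length]
    have h7 := g_strictMono.injective h6
    subst h7
    exact ⟨h1, hi, e⟩
  · rintro ⟨h1, h2, h3⟩
    refine ⟨h1, ?_, ?_, ?_, ?_⟩
    · rw [h3, seg_length]
    · rw [h3]; exact seg_nodup _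
    · intro y hy
      rw [h3, mem_seg] at hy
      obtain ⟨i, _, rfl⟩ := hy
      exact fun h => h
    · intro i hi
      rw [h3, seg_take hi]
      exact ⟨i, hi.trans h2, rfl⟩

theorem R_iff {u v : VX} : (HS k).R u v ↔
    (u = VX.x ∧ ∃ i, i < k ∧ v = VX.b i) ∨ (v = VX.x ∧ ∃ i, i < k ∧ u = VX.b i) := by
  constructor
  · rintro ⟨-, -, -, h | h⟩
    · exact Or.inl h
    · exact Or.inr h
  · rintro (⟨rfl, i, hi, rfl⟩ | ⟨rfl, i, hi, rfl⟩)
    · exact ⟨trivial, trivial, by simp, Or.inl ⟨rfl, i, hi, rfl⟩⟩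
    · exact ⟨trivial, trivial, by simp, Or.inr ⟨rfl, i, hi, rfl⟩⟩

/-- the points of `X` -/
noncomputable def P (X : Finset VX) : Finset VX := X.filter IsPt
/-- the letters of `X` -/
noncomputable def Lt (X : Finset VX) : Finset VX := X.filter fun v => ¬ IsPt v
/-- the levels of `X` -/
noncomputable def Js (k : ℕ) (X : Finset VX) : Finset ℕ :=
  (Finset.range (k + 1)).filter fun j => ∀ y ∈ seg j, y ∈ X
/-- the number of levels of `X` -/
noncomputable def J (k : ℕ) (X : Finset VX) : ℕ := (Js k X).card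

theorem card_eq (X : Finset VX) : X.card = (P X).card + (Lt X).card := by
  unfold P Lt
  rw [Finset.card_filter_add_card_filter_not]

theorem Js_down {X : Finset VX} {i j : ℕ} (hj : j ∈ Js k X) (hi : i ≤ j) : i ∈ Js k X := by
  unfold Js at hj ⊢
  rw [Finset.mem_filter, Finset.mem_range] at hj ⊢
  refine ⟨by omega, fun y hy => hj.2 y ?_⟩
  rw [mem_seg] at hy ⊢
  obtain ⟨a, ha, rfl⟩ := hy
  exact ⟨a, ha.trans_le (g_strictMono.monotone hi), rfl⟩

theorem Js_eq (X : Finset VX) : Js k X = Finset.range (J k X) := by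
  have h1 : ∀ j ∈ Js k X, j < J k X := by
    intro j hj
    have : Finset.range (j + 1) ⊆ Js k X := fun i hi =>
      Js_down hj (Nat.lt_succ_iff.1 (Finset.mem_range.1 hi))
    have := Finset.card_le_card this
    rw [Finset.card_range] at this
    exact this
  refine Finset.eq_of_subset_of_card_le (fun j hj => Finset.mem_range.2 (h1 j hj)) ?_
  rw [Finset.card_range]; rfl

theorem mem_Js {X : Finset VX} {j : ℕ} : j ∈ Js k X ↔ j ≤ k ∧ ∀ y ∈ seg j, y ∈ X := by
  unfold Js
  rw [Finset.mem_filter, Finset.mem_range, Nat.lt_succ_iff]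

theorem ic_eq (X : Finset VX) :
    (HS k).ic X = (P X ×ˢ Js k X).image fun p => (p.1, (p.2, seg p.2)) := by
  ext ⟨v, l⟩
  rw [Str.mem_ic, Finset.mem_image, mem_lin, on_iff]
  unfold P
  constructor
  · rintro ⟨h1, h2, h3, h4, h5⟩
    refine ⟨(v, l.1), ?_, ?_⟩
    · rw [Finset.mem_product, Finset.mem_filter, mem_Js]
      refine ⟨⟨h1, h3⟩, h4, fun y hy => h2.2.2 y ?_⟩
      simp only at h5 hy
      rw [h5]; exact hy
    · simp only at h5 ⊢
      rw [← h5]
  · rintro ⟨⟨p, j⟩, h, e⟩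
    rw [Finset.mem_product, Finset.mem_filter, mem_Js] at h
    simp only [Prod.mk.injEq] at e
    obtain ⟨rfl, rfl⟩ := e
    exact ⟨h.1.1, ⟨seg_length _, seg_nodup _, h.2.2⟩, h.1.2, h.2.1, rfl⟩

theorem fl_eq (X : Finset VX) :
    (HS k).fl X = ((HS k).ed X ×ˢ Js k X).image fun p => (p.1, (p.2, seg p.2)) := by
  ext ⟨e, l⟩
  rw [Str.mem_fl, Finset.mem_image, mem_lin, on_iff, on_iff]
  constructor
  · rintro ⟨h1, h2, ⟨h3, h4, h5⟩, h6, -, -⟩
    refine ⟨(e, l.1), ?_, ?_⟩
    · rw [Finset.mem_product, mem_Js]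
      refine ⟨h1, h4, fun y hy => h2.2.2 y ?_⟩
      simp only at h5 hy
      rw [h5]; exact hy
    · simp only at h5 ⊢
      rw [← h5]
  · rintro ⟨⟨e', j⟩, h, e0⟩
    rw [Finset.mem_product, mem_Js] at h
    simp only [Prod.mk.injEq] at e0
    obtain ⟨rfl, rfl⟩ := e0
    have h1 := h.1
    rw [Str.mem_ed] at h1
    exact ⟨h.1, ⟨seg_length _, seg_nodup _, h.2.2⟩, ⟨h1.2.2.1, h.2.1, rfl⟩, h1.2.2.2.1, h.2.1, rfl⟩

theorem dl_eq (X : Finset VX) : (HS k).dl X =
    wt * (Lt X).card + r (J k X) * (P X).card - w (J k X) * ((HS k).ed X).card := by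
  have h1 : ∑ p ∈ (HS k).ic X, a p.2.1 = (P X).card * ∑ j ∈ Finset.range (J k X), a j := by
    rw [ic_eq, Finset.sum_image, Finset.sum_product]
    · simp only
      rw [Js_eq, Finset.sum_const, nsmul_eq_mul]
    · rintro ⟨u, i⟩ _ ⟨v, j⟩ _ h
      simp only [Prod.mk.injEq] at h
      rw [h.1, h.2.1]
  have h2 : ∑ p ∈ (HS k).fl X, q (p.2.1 + 1) =
      ((HS k).ed X).card * ∑ j ∈ Finset.range (J k X), q (j + 1) := by
    rw [fl_eq, Finset.sum_image, Finset.sum_product]
    · simp only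
      rw [Js_eq, Finset.sum_const, nsmul_eq_mul]
    · rintro ⟨u, i⟩ _ ⟨v, j⟩ _ h
      simp only [Prod.mk.injEq] at h
      rw [h.1, h.2.1]
  unfold Str.dl
  rw [h1, h2, card_eq X, ← r_eq (J k X), ← w_sum (J k X)]
  push_cast
  ring

/-- the neighbours of `x` in `X` -/
noncomputable def bs (k : ℕ) (X : Finset VX) : Finset ℕ := (Finset.range k).filter fun i => VX.b i ∈ X

theorem ed_card (X : Finset VX) : ((HS k).ed X).card ≤ 2 * (bs k X).card := by
  have h : (HS k).ed X ⊆ (bs k X).image (fun i => (VX.x, VX.b i)) ∪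
      (bs k X).image (fun i => (VX.b i, VX.x)) := by
    rintro ⟨u, v⟩ he
    rw [Str.mem_ed, R_iff] at he
    simp only at he
    rw [Finset.mem_union, Finset.mem_image, Finset.mem_image]
    rcases he with ⟨h1, h2, ⟨rfl, i, hi, rfl⟩ | ⟨rfl, i, hi, rfl⟩⟩
    · left
      exact ⟨i, Finset.mem_filter.2 ⟨Finset.mem_range.2 hi, h2⟩, rfl⟩
    · right
      exact ⟨i, Finset.mem_filter.2 ⟨Finset.mem_range.2 hi, h1⟩, rfl⟩
  have h1 := Finset.card_le_card h
  have h2 := Finset.card_union_le ((bs k X).image (fun i => (VX.x, VX.b i)))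
    ((bs k X).image (fun i => (VX.b i, VX.x)))
  have h3 : ((bs k X).image (fun i => (VX.x, VX.b i))).card ≤ (bs k X).card := Finset.card_image_le
  have h4 : ((bs k X).image (fun i => (VX.b i, VX.x))).card ≤ (bs k X).card := Finset.card_image_le
  omega

theorem bs_le_k (X : Finset VX) : (bs k X).card ≤ k := by
  have := Finset.card_filter_le (Finset.range k) fun i => VX.b i ∈ X
  rw [Finset.card_range] at this
  exact this

theorem bs_le_P (X : Finset VX) : (bs k X).card ≤ (P X).card := by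
  refine Finset.card_le_card_of_injOn VX.b ?_ ?_
  · intro i hi
    have := (Finset.mem_filter.1 (Finset.mem_coe.1 hi)).2
    exact Finset.mem_coe.2 (Finset.mem_filter.2 ⟨this, trivial⟩)
  · intro i _ j _ h
    injection h

theorem ed_empty {X : Finset VX} (h : VX.x ∉ X) : (HS k).ed X = ∅ := by
  rw [Finset.eq_empty_iff_forall_notMem]
  rintro ⟨u, v⟩ he
  rw [Str.mem_ed, R_iff] at he
  simp only at he
  rcases he with ⟨h1, h2, ⟨rfl, -⟩ | ⟨rfl, -⟩⟩
  · exact h h1
  · exact h h2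

theorem nl_le (j : ℕ) (p : VX) (X : Finset VX) : (HS k).nl j p X ≤ 1 := by
  unfold Str.nl
  rw [Finset.card_le_one]
  intro l hl l' hl'
  rw [Finset.mem_filter, on_iff] at hl hl'
  refine Prod.ext (hl.2.1.trans hl'.2.1.symm) ?_
  rw [hl.2.2.2.2, hl'.2.2.2.2, hl.2.1, hl'.2.1]

theorem c1 (Z : Set VX) : (HS k).C1 Z := by
  intro j S Y _ _
  have h : ∑ p ∈ Y, (2 * ((HS k).nl j p S : ℤ) - 3) ≤ 0 := by
    refine Finset.sum_nonpos fun p _ => ?_
    have := nl_le (k := k) j p S
    omega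
  have : (0 : ℤ) ≤ K j * S.card := by positivity
  linarith

theorem g_le_Lt {X : Finset VX} {j : ℕ} (hj : j ∈ Js k X) : g j ≤ (Lt X).card := by
  rw [mem_Js] at hj
  have h : (seg j).toFinset ⊆ Lt X := by
    intro y hy
    rw [List.mem_toFinset] at hy
    refine Finset.mem_filter.2 ⟨hj.2 y hy, ?_⟩
    obtain ⟨i, -, rfl⟩ := mem_seg.1 hy
    exact fun h => h
  have := Finset.card_le_card h
  rwa [List.toFinset_card_of_nodup (seg_nodup j), seg_length] at this

theorem cls (Z : Set VX) : (HS k).Cls Z where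
  c1 := c1 Z
  c2 := by
    intro X _
    rw [dl_eq]
    have h1 : (((HS k).ed X).card : ℝ) ≤ 2 * (P X).card := by
      have := ed_card (k := k) X
      have := bs_le_P (k := k) X
      exact_mod_cast (by omega : ((HS k).ed X).card ≤ 2 * (P X).card)
    have h2 := wt_ge
    have h3 : (X.card : ℝ) = (P X).card + (Lt X).card := by exact_mod_cast card_eq X
    set s' : ℝ := ((Lt X).card : ℝ)
    set p : ℝ := ((P X).card : ℝ)
    have hs : 0 ≤ s' := Nat.cast_nonneg _
    have hp : 0 ≤ p := Nat.cast_nonneg _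
    have key : s' / 2 + q (J k X) / 4 * p ≤
        wt * s' + r (J k X) * p - w (J k X) * ((HS k).ed X).card := by
      have h4 := r_ge (J k X)
      have h5 := w_le' (J k X)
      have h6 := w_pos (J k X)
      have h7 := q_pos (J k X)
      have h8 : w (J k X) * ((HS k).ed X).card ≤ w (J k X) * (2 * p) :=
        mul_le_mul_of_nonneg_left h1 h6.le
      have h9 : (q (J k X) / 4 + 2 * w (J k X)) * p ≤ r (J k X) * p := by
        refine mul_le_mul_of_nonneg_right ?_ hp
        nlinarith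
      nlinarith
    refine le_trans ?_ key
    rcases Nat.eq_zero_or_pos (J k X) with h0 | h0
    · rw [h0, q_zero]
      have := f_small X.card
      rw [h3] at this
      linarith
    · obtain ⟨j, hj⟩ : ∃ j, J k X = j + 1 := ⟨J k X - 1, by omega⟩
      rw [hj]
      have h4 := f_up j X.card
      rw [h3] at h4
      have h5 : (g j : ℝ) ≤ s' := by
        have h5' : j ∈ Js k X := by rw [Js_eq, Finset.mem_range]; omega
        show (g j : ℝ) ≤ ((Lt X).card : ℝ)
        exact_mod_cast g_le_Lt h5'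
      have h6 := q_le_one (j + 1)
      have h7 := q_pos (j + 1)
      have h8 : q (j + 1) * s' ≤ s' := by nlinarith
      have h9 : 0 ≤ q (j + 1) * p := by positivity
      nlinarith

/-- the line and the points `b i`, `i ∈ F` -/
noncomputable def LB (k : ℕ) (F : Finset ℕ) : Finset VX :=
  (Finset.range (g k)).image VX.s ∪ F.image VX.b

theorem mem_LB {F : Finset ℕ} {v : VX} :
    v ∈ LB k F ↔ (∃ i < g k, v = VX.s i) ∨ ∃ i ∈ F, v = VX.b i := by
  unfold LB
  rw [Finset.mem_union, Finset.mem_image, Finset.mem_image]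
  constructor
  · rintro (⟨i, hi, rfl⟩ | ⟨i, hi, rfl⟩)
    · exact Or.inl ⟨i, Finset.mem_range.1 hi, rfl⟩
    · exact Or.inr ⟨i, hi, rfl⟩
  · rintro (⟨i, hi, rfl⟩ | ⟨i, hi, rfl⟩)
    · exact Or.inl ⟨i, Finset.mem_range.2 hi, rfl⟩
    · exact Or.inr ⟨i, hi, rfl⟩

theorem x_notMem_LB {F : Finset ℕ} : VX.x ∉ LB k F := by
  rw [mem_LB]
  rintro (⟨i, _, h⟩ | ⟨i, _, h⟩) <;> simp at h

theorem LB_mono {F F' : Finset ℕ} (h : F ⊆ F') : LB k F ⊆ LB k F' :=
  Finset.union_subset_union_right (Finset.image_subset_image h)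

theorem J_full {X : Finset VX} (h : LB k ∅ ⊆ X) : J k X = k + 1 := by
  have h1 : Js k X = Finset.range (k + 1) := by
    ext j
    rw [mem_Js, Finset.mem_range, Nat.lt_succ_iff]
    refine ⟨fun h => h.1, fun hj => ⟨hj, fun y hy => h ?_⟩⟩
    obtain ⟨i, hi, rfl⟩ := mem_seg.1 hy
    rw [mem_LB]
    exact Or.inl ⟨i, hi.trans_le (g_strictMono.monotone hj), rfl⟩
  unfold J
  rw [h1, Finset.card_range]

theorem pc_of {A : Finset VX} {Z : Set VX} (hL : LB k ∅ ⊆ A) (hA : ↑A ⊆ Z) : (HS k).PC A Z where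
  sub := hA
  g1 := by
    intro l _ hN y hy
    have h1 : 0 < ((HS k).pts l A).card := lt_of_lt_of_le (N_pos _) hN
    obtain ⟨p, hp⟩ := Finset.card_pos.1 h1
    rw [Str.mem_pts, on_iff] at hp
    rw [hp.2.2.2, mem_seg] at hy
    obtain ⟨i, hi, rfl⟩ := hy
    apply hL
    rw [mem_LB]
    exact Or.inl ⟨i, hi.trans_le (g_strictMono.monotone hp.2.2.1), rfl⟩
  g2 := fun p _ _ j => nl_le j p A

theorem P_mono {A B : Finset VX} (h : A ⊆ B) : P A ⊆ P B := Finset.filter_subset_filter _ h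
theorem Lt_mono {A B : Finset VX} (h : A ⊆ B) : Lt A ⊆ Lt B := Finset.filter_subset_filter _ h

theorem r_pos (j : ℕ) : 0 < r j := by
  have := r_ge j
  have := q_pos j
  linarith

theorem cl_LB {F F' : Finset ℕ} (h : F ⊆ F') : (HS k).Cl (LB k F) ↑(LB k F') := by
  refine ⟨pc_of (LB_mono (Finset.empty_subset _)) (Finset.coe_subset.2 (LB_mono h)), ?_⟩
  intro B hB hlt
  have hBs : B ⊆ LB k F' := Finset.coe_subset.1 hB.sub
  have e0 : LB k ∅ ⊆ LB k F := LB_mono (Finset.empty_subset _)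
  rw [dl_eq, dl_eq, J_full e0, J_full (e0.trans hlt.1), ed_empty x_notMem_LB,
    ed_empty (fun h => x_notMem_LB (hBs h))]
  have h1 := Finset.card_lt_card hlt
  rw [card_eq, card_eq B] at h1
  have h2 := Finset.card_le_card (P_mono hlt.1)
  have h3 := Finset.card_le_card (Lt_mono hlt.1)
  have h4 := wt_ge
  have h5 := r_pos (k + 1)
  have h2' : ((P (LB k F)).card : ℝ) ≤ (P B).card := by exact_mod_cast h2
  have h3' : ((Lt (LB k F)).card : ℝ) ≤ (Lt B).card := by exact_mod_cast h3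
  have h6 : ((P (LB k F)).card : ℝ) + 1 ≤ (P B).card ∨ ((Lt (LB k F)).card : ℝ) + 1 ≤ (Lt B).card := by
    by_cases h : (P (LB k F)).card + 1 ≤ (P B).card
    · left; exact_mod_cast h
    · right; exact_mod_cast (by omega : (Lt (LB k F)).card + 1 ≤ (Lt B).card)
  rcases h6 with h6 | h6 <;> nlinarith

/-- the numerical condition for `k` edges -/
theorem small_w (k : ℕ) : w (k + 1) * (2 * k) < r (k + 1) := by
  have h1 := r_ge (k + 1)
  have h2 := w_le (k + 1)
  have h3 := q_lt (k + 1)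
  have h4 := q_pos (k + 1)
  have h4' := q_pos (k + 1 + 1)
  have h5 := q_le_one (k + 1)
  have h6 : ((k : ℝ) + 1) ≤ g (k + 1) := by exact_mod_cast (g_lt (k + 1)).le
  have h7 := g_ge' (k + 1)
  have h8 : (g (k + 1) : ℝ) ≤ (g (k + 1) : ℝ) ^ 4 := by
    have h9 : (g (k + 1) : ℝ) ^ 1 ≤ (g (k + 1) : ℝ) ^ 4 := pow_le_pow_right₀ (by linarith) (by norm_num)
    simpa using h9
  have h9 : q (k + 1) ^ 4 ≤ q (k + 1) := by
    have : q (k + 1) ^ 4 ≤ q (k + 1) ^ 1 := pow_le_pow_of_le_one h4.le h5 (by norm_num)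
    simpa using this
  have h10 : q (k + 1 + 1) * (g (k + 1) : ℝ) ≤ q (k + 1 + 1) * (g (k + 1) : ℝ) ^ 4 :=
    mul_le_mul_of_nonneg_left h8 h4'.le
  have hk : (0 : ℝ) ≤ k := Nat.cast_nonneg k
  have h11 : w (k + 1) * (2 * k) ≤ 2 * q (k + 1 + 1) * (2 * k) :=
    mul_le_mul_of_nonneg_right h2 (by positivity)
  have h12 : q (k + 1 + 1) * (k : ℝ) ≤ q (k + 1 + 1) * (g (k + 1) : ℝ) :=
    mul_le_mul_of_nonneg_left (by linarith) h4'.le
  nlinarith

theorem cl_star : (HS k).Cl (LB k (Finset.range k)) ↑(insert VX.x (LB k (Finset.range k))) := by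
  refine ⟨pc_of (LB_mono (Finset.empty_subset _)) (Finset.coe_subset.2 (Finset.subset_insert _ _)), ?_⟩
  intro B hB hlt
  have hBs : B ⊆ insert VX.x (LB k (Finset.range k)) := Finset.coe_subset.1 hB.sub
  have e0 : LB k ∅ ⊆ LB k (Finset.range k) := LB_mono (Finset.empty_subset _)
  rw [dl_eq, dl_eq, J_full e0, J_full (e0.trans hlt.1), ed_empty x_notMem_LB]
  have hx : VX.x ∈ B := by
    by_contra hx
    apply hlt.2
    intro v hv
    rcases Finset.mem_insert.1 (hBs hv) with rfl | h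
    · exact absurd hv hx
    · exact h
  have h1 : (P (LB k (Finset.range k))).card < (P B).card := by
    apply Finset.card_lt_card
    refine ⟨P_mono hlt.1, fun hc => ?_⟩
    have := hc (Finset.mem_filter.2 ⟨hx, trivial⟩)
    exact x_notMem_LB (Finset.mem_filter.1 this).1
  have h1' : ((P (LB k (Finset.range k))).card : ℝ) + 1 ≤ (P B).card := by exact_mod_cast h1
  have h3' : ((Lt (LB k (Finset.range k))).card : ℝ) ≤ (Lt B).card := by
    exact_mod_cast Finset.card_le_card (Lt_mono hlt.1)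
  have h4 := wt_ge
  have h5 := r_pos (k + 1)
  have h6 := w_pos (k + 1)
  have h7 : (((HS k).ed B).card : ℝ) ≤ 2 * k := by
    have := ed_card (k := k) B
    have := bs_le_k (k := k) B
    exact_mod_cast (by omega : ((HS k).ed B).card ≤ 2 * k)
  have h8 := small_w k
  have h9 : w (k + 1) * (((HS k).ed B).card : ℝ) ≤ w (k + 1) * (2 * k) :=
    mul_le_mul_of_nonneg_left h7 h6.le
  have h10 : wt * ((Lt (LB k (Finset.range k))).card : ℝ) ≤ wt * (Lt B).card :=
    mul_le_mul_of_nonneg_left h3' (by linarith)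
  have h11 : r (k + 1) * ((P (LB k (Finset.range k))).card + 1 : ℝ) ≤ r (k + 1) * (P B).card :=
    mul_le_mul_of_nonneg_left h1' h5.le
  simp only [Finset.card_empty, Nat.cast_zero, mul_zero, sub_zero]
  linarith

end Run7.h228.LW
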