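import Pool.Agent.Run7.h228.LW.EX1

/-!
# Piece EX, part 2: the graph is not low
-/

set_option autoImplicit false
set_option linter.all false

namespace Run7.h228.LW
open Run7.h520.LW
open Classical

variable {k : ℕ}

/-- the map of the structures induced by a map of the indices -/
def mv (ρ : ℕ → ℕ) : VX → VX
  | VX.s i => VX.s i
  | VX.b i => VX.b (ρ i)
  | VX.x => VX.x

theorem isPt_mv (ρ : ℕ → ℕ) (v : VX) : IsPt (mv ρ v) ↔ IsPt v := by
  cases v <;> rfl

theorem mv_eq_s {ρ : ℕ → ℕ} {v : VX} {i : ℕ} (h : mv ρ v = VX.s i) : v = VX.s i := by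
  cases v <;> simp [mv] at h
  rw [h]

theorem not_R {F : Finset ℕ} {u v : VX} (hu : u ∈ LB k F) (hv : v ∈ LB k F) : ¬ (HS k).R u v := by
  rw [R_iff]
  rintro (⟨rfl, -⟩ | ⟨rfl, -⟩)
  · exact x_notMem_LB hu
  · exact x_notMem_LB hv

theorem mv_mem {ρ : ℕ → ℕ} {F : Finset ℕ} {v : VX} (hv : v ∈ LB k F) : mv ρ v ∈ LB k (F.image ρ) := by
  rw [mem_LB] at hv ⊢
  rcases hv with ⟨i, hi, rfl⟩ | ⟨i, hi, rfl⟩
  · exact Or.inl ⟨i, hi, rfl⟩
  · exact Or.inr ⟨ρ i, Finset.mem_image_of_mem ρ hi, rfl⟩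

theorem LB_image (ρ : ℕ → ℕ) (F : Finset ℕ) : (LB k F).image (mv ρ) = LB k (F.image ρ) := by
  ext v
  rw [Finset.mem_image]
  constructor
  · rintro ⟨u, hu, rfl⟩; exact mv_mem hu
  · intro hv
    rw [mem_LB] at hv
    rcases hv with ⟨i, hi, rfl⟩ | ⟨i, hi, rfl⟩
    · exact ⟨VX.s i, mem_LB.2 (Or.inl ⟨i, hi, rfl⟩), rfl⟩
    · obtain ⟨j, hj, rfl⟩ := Finset.mem_image.1 hi
      exact ⟨VX.b j, mem_LB.2 (Or.inr ⟨j, hj, rfl⟩), rfl⟩

theorem emb_mv {ρ : ℕ → ℕ} {F : Finset ℕ} (hρ : Set.InjOn ρ F) :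
    Emb (HS k) (HS k) (LB k F) (mv ρ) where
  inj := by
    intro u hu v hv h
    rw [mem_LB] at hu hv
    rcases hu with ⟨i, hi, rfl⟩ | ⟨i, hi, rfl⟩ <;> rcases hv with ⟨j, hj, rfl⟩ | ⟨j, hj, rfl⟩
    · exact h
    · simp [mv] at h
    · simp [mv] at h
    · simp only [mv, VX.b.injEq] at h
      rw [hρ hi hj h]
  pt := fun v _ => isPt_mv ρ v
  R := by
    intro u hu v hv
    exact iff_of_false (not_R (mv_mem hu) (mv_mem hv)) (not_R hu hv)
  on := by
    intro v _ l _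
    rw [on_iff, on_iff, isPt_mv]
    have h1 : ∀ L : List VX, L.map (mv ρ) = seg l.1 → L = seg l.1 := by
      intro L hL
      have h2 : L.map (mv ρ) = L := by
        have : ∀ y ∈ L, mv ρ y = y := by
          intro y hy
          have : mv ρ y ∈ seg l.1 := by rw [← hL]; exact List.mem_map_of_mem hy
          obtain ⟨i, _, e⟩ := mem_seg.1 this
          rw [mv_eq_s e]; rfl
        conv_rhs => rw [← List.map_id L]
        exact List.map_congr_left this
      rw [← h2, hL]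
    have h2 : (seg l.1).map (mv ρ) = seg l.1 := by
      conv_rhs => rw [← List.map_id (seg l.1)]
      apply List.map_congr_left
      intro y hy
      obtain ⟨i, _, rfl⟩ := mem_seg.1 hy
      rfl
    constructor
    · rintro ⟨h3, h4, h5⟩; exact ⟨h3, h4, h1 _ h5⟩
    · rintro ⟨h3, h4, h5⟩
      refine ⟨h3, h4, ?_⟩
      show l.2.map (mv ρ) = _
      rw [h5, h2]

variable {M : Str ℕ} {Ω : Set ℕ}

/-- the images of the sets `LB k (range m)` are closed -/
def Good (M : Str ℕ) (Ω : Set ℕ) (k m : ℕ) (φ : VX → ℕ) : Prop :=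
  Emb (HS k) M (LB k (Finset.range m)) φ ∧ M.Cl ((LB k (Finset.range m)).image φ) Ω

theorem exists_seq (hE : S_EMB) (hC : S_CLO) (hM : Rich M Ω) (k : ℕ) :
    ∃ ψ : VX → ℕ, ∀ m, Good M Ω k m ψ := by
  have step : ∀ m φ, Good M Ω k m φ → ∃ ψ, Good M Ω k (m + 1) ψ ∧
      ∀ v ∈ LB k (Finset.range m), ψ v = φ v := by
    intro m φ hφ
    obtain ⟨ψ, h1, h2, h3⟩ := hM.rich VX (HS k) (LB k (Finset.range m)) (LB k (Finset.range (m + 1)))
      (cls _) (cl_LB (Finset.range_mono (Nat.le_succ m))) φ hφ.1 hφ.2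
    exact ⟨ψ, ⟨h1, h3⟩, h2⟩
  have start : ∃ φ, Good M Ω k 0 φ := by
    have h0 : Emb (HS k) M ∅ (fun _ => (0 : ℕ)) :=
      ⟨by simp, by simp, by simp, by simp⟩
    obtain ⟨ψ, h1, h2, h3⟩ := hM.rich VX (HS k) ∅ (LB k (Finset.range 0))
      (cls _) (hC.empty (cls _)) _ h0 (by rw [Finset.image_empty]; exact hC.empty hM.k)
    exact ⟨ψ, h1, h3⟩
  obtain ⟨φ0, h0⟩ := start
  choose! nx h1 h2 using step
  let Φ : ℕ → VX → ℕ := fun m => Nat.rec φ0 (fun m φ => nx m φ) m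
  have hΦ : ∀ m, Good M Ω k m (Φ m) := by
    intro m
    induction m with
    | zero => exact h0
    | succ m ih => exact h1 m (Φ m) ih
  have hstep : ∀ m, ∀ v ∈ LB k (Finset.range m), Φ (m + 1) v = Φ m v := fun m => h2 m (Φ m) (hΦ m)
  let ψ : VX → ℕ := fun v => match v with
    | VX.s i => Φ 0 (VX.s i)
    | VX.b i => Φ (i + 1) (VX.b i)
    | VX.x => 0
  have hψ : ∀ m, ∀ v ∈ LB k (Finset.range m), ψ v = Φ m v := by
    intro m
    induction m with
    | zero =>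
      intro v hv
      rw [mem_LB] at hv
      rcases hv with ⟨i, hi, rfl⟩ | ⟨i, hi, rfl⟩
      · rfl
      · simp at hi
    | succ m ih =>
      intro v hv
      have hv' := hv
      rw [mem_LB] at hv
      rcases hv with ⟨i, hi, rfl⟩ | ⟨i, hi, rfl⟩
      · have h3 : VX.s i ∈ LB k (Finset.range m) := mem_LB.2 (Or.inl ⟨i, hi, rfl⟩)
        rw [hstep m _ h3]; exact ih _ h3
      · rw [Finset.mem_range, Nat.lt_succ_iff_lt_or_eq] at hi
        rcases hi with hi | rfl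
        · have h3 : VX.b i ∈ LB k (Finset.range m) := mem_LB.2 (Or.inr ⟨i, Finset.mem_range.2 hi, rfl⟩)
          rw [hstep m _ h3]; exact ih _ h3
        · rfl
  refine ⟨ψ, fun m => ⟨hE.congr (hΦ m).1 (hψ m), ?_⟩⟩
  have : (LB k (Finset.range m)).image ψ = (LB k (Finset.range m)).image (Φ m) :=
    Finset.image_congr fun v hv => hψ m v (Finset.mem_coe.1 hv)
  rw [this]
  exact (hΦ m).2

theorem sub_range (F : Finset ℕ) : F ⊆ Finset.range (F.sup id + 1) := fun i hi =>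
  Finset.mem_range.2 (Nat.lt_succ_of_le (Finset.le_sup (f := id) hi))

theorem emb_F (hE : S_EMB) {ψ : VX → ℕ} (hψ : ∀ m, Good M Ω k m ψ) (F : Finset ℕ) :
    Emb (HS k) M (LB k F) ψ := hE.mono (hψ _).1 (LB_mono (sub_range F))

theorem cl_F (hE : S_EMB) (hC : S_CLO) (hM : Rich M Ω) {ψ : VX → ℕ} (hψ : ∀ m, Good M Ω k m ψ)
    (F : Finset ℕ) : M.Cl ((LB k F).image ψ) Ω := by
  have h1 := (hE.cl (hψ (F.sup id + 1)).1 (LB_mono (sub_range F))).2 (cl_LB (sub_range F))
  exact hC.trans hM.amb h1 (hψ _).2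

theorem sim (hE : S_EMB) (hC : S_CLO) (hM : Rich M Ω) {ψ : VX → ℕ} (hψ : ∀ m, Good M Ω k m ψ)
    {r : ℕ} (σ τ : Fin r → ℕ) (hσ : Function.Injective σ) (hτ : Function.Injective τ) :
    SimV M Ω ((fun i => ψ (VX.b i)) ∘ σ) ((fun i => ψ (VX.b i)) ∘ τ) := by
  let ρ : ℕ → ℕ := fun j => if h : ∃ i, σ i = j then τ h.choose else j
  have hρ : ∀ i, ρ (σ i) = τ i := by
    intro i
    have h : ∃ i', σ i' = σ i := ⟨i, rfl⟩
    simp only [ρ, dif_pos h]
    rw [hσ h.choose_spec]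
  let F : Finset ℕ := Finset.univ.image σ
  have hF : F.image ρ = Finset.univ.image τ := by
    rw [Finset.image_image]
    exact Finset.image_congr fun i _ => hρ i
  have hinj : Set.InjOn ρ F := by
    intro a ha b hb h
    obtain ⟨i, _, rfl⟩ := Finset.mem_image.1 (Finset.mem_coe.1 ha)
    obtain ⟨j, _, rfl⟩ := Finset.mem_image.1 (Finset.mem_coe.1 hb)
    rw [hρ, hρ] at h
    rw [hτ h]
  obtain ⟨φ', h1, h2, h3⟩ := hE.inv (emb_F hE hψ F)
  have e1 : Emb M (HS k) ((LB k F).image ψ) (mv ρ ∘ φ') := by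
    refine hE.comp h2 ?_
    rw [h3]; exact emb_mv hinj
  have e2 : ((LB k F).image ψ).image (mv ρ ∘ φ') = LB k (F.image ρ) := by
    rw [← Finset.image_image, h3, LB_image]
  have e3 : Emb M M ((LB k F).image ψ) (ψ ∘ (mv ρ ∘ φ')) := by
    refine hE.comp e1 ?_
    rw [e2]; exact emb_F hE hψ _
  refine ⟨(LB k F).image ψ, ψ ∘ (mv ρ ∘ φ'), cl_F hE hC hM hψ F, e3, ?_, fun i => ⟨?_, ?_⟩⟩
  · rw [← Finset.image_image, e2]; exact cl_F hE hC hM hψ _
  · refine Finset.mem_image_of_mem ψ (mem_LB.2 (Or.inr ⟨σ i, ?_, rfl⟩))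
    exact Finset.mem_image_of_mem σ (Finset.mem_univ i)
  · have hm : VX.b (σ i) ∈ LB k F :=
      mem_LB.2 (Or.inr ⟨σ i, Finset.mem_image_of_mem σ (Finset.mem_univ i), rfl⟩)
    show ψ (mv ρ (φ' (ψ (VX.b (σ i))))) = ψ (VX.b (τ i))
    rw [h1 _ hm]
    show ψ (VX.b (ρ (σ i))) = _
    rw [hρ]

theorem dl_single (G : Str ℕ) (x : ℕ) : G.dl {x} = wt := by
  have hl : ∀ l : ℕ × List ℕ, l ∉ lin ({x} : Finset ℕ) := by
    intro l hl
    have := (mem_lin.1 hl).card
    rw [Finset.card_singleton] at this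
    have := g_ge l.1
    omega
  have h1 : G.ed {x} = ∅ := by
    rw [Finset.eq_empty_iff_forall_notMem]
    rintro ⟨u, v⟩ he
    rw [Str.mem_ed, Finset.mem_singleton, Finset.mem_singleton] at he
    exact he.2.2.2.2.1 (he.1.trans he.2.1.symm)
  have h2 : G.ic {x} = ∅ := by
    rw [Finset.eq_empty_iff_forall_notMem]
    intro e he
    rw [Str.mem_ic] at he
    exact hl _ he.2.1
  have h3 : G.fl {x} = ∅ := by
    rw [Finset.eq_empty_iff_forall_notMem]
    intro e he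
    rw [Str.mem_fl] at he
    exact hl _ he.2.1
  unfold Str.dl
  rw [h1, h2, h3]
  simp

/-- a point with `K` neighbours on the line is impossible -/
theorem no_star (hE : S_EMB) (hCa : S_CALC) (hH : S_HULL) (hC : S_CLO) (hM : Rich M Ω) {ψ : VX → ℕ}
    (hψ : ∀ m, Good M Ω k m ψ) (n : ℕ) (hn : 1 ≤ n) (hw : 1 < 2 * n * w (k + 1)) (x : ℕ) (hx : x ∈ Ω)
    (hR : ∀ i < n, M.R x (ψ (VX.b i))) : False := by
  set C := (LB k (Finset.range n)).image ψ with hCdef
  have hCl : M.Cl C Ω := (hψ n).2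
  have hemb := (hψ n).1
  have hxpt : M.pt x := (hR 0 (by omega)).1
  have hxC : x ∉ C := by
    intro hxC
    obtain ⟨v, hv, rfl⟩ := Finset.mem_image.1 hxC
    have hb : VX.b 0 ∈ LB k (Finset.range n) :=
      mem_LB.2 (Or.inr ⟨0, Finset.mem_range.2 (by omega), rfl⟩)
    exact not_R hv hb ((hemb.R _ hv _ hb).1 (hR 0 (by omega)))
  -- points of `C`
  have hpt : ∀ v ∈ C, M.pt v → ∃ i < n, v = ψ (VX.b i) := by
    intro v hv hvp
    obtain ⟨u, hu, rfl⟩ := Finset.mem_image.1 hv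
    have h1 := (hemb.pt u hu).1 hvp
    rw [mem_LB] at hu
    rcases hu with ⟨i, _, rfl⟩ | ⟨i, hi, rfl⟩
    · exact h1.elim
    · exact ⟨i, Finset.mem_range.1 hi, rfl⟩
  -- levels of the lines of `C` through a point of `C`
  have hlev : ∀ v ∈ C, ∀ l ∈ lin C, M.On v l → l.1 < k + 1 := by
    intro v hv l hl hon
    obtain ⟨φ', h1, h2, h3⟩ := hE.inv hemb
    have h4 := (h2.on v hv l (mem_lin.1 hl).2.2).2 hon
    rw [on_iff] at h4
    exact Nat.lt_succ_of_le h4.2.1
  have hnl : ∀ j, M.nl j x C ≤ 1 := hCl.1.g2 x hx hxC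
  -- lines of `insert x C` through a point are lines of `C`
  have hlin : ∀ v, ∀ l ∈ lin (C ∪ {x}), M.On v l → l ∈ lin C := by
    intro v l hl hon
    rw [mem_lin] at hl ⊢
    refine ⟨hl.1, hl.2.1, fun y hy => ?_⟩
    rcases Finset.mem_union.1 (hl.2.2 y hy) with h | h
    · exact h
    · rw [Finset.mem_singleton] at h
      subst h
      exact absurd hxpt (hon.ne hy)
  -- the sum over the common lines
  have hsum : ∀ e : ℕ × ℕ, (e.1 = x ∧ e.2 ∈ C) ∨ (e.2 = x ∧ e.1 ∈ C) →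
      ∑ l ∈ (lin C).filter (fun l => M.On e.1 l ∧ M.On e.2 l), q (l.1 + 1) ≤ w 0 - w (k + 1) := by
    intro e he
    have h1 : ∀ l ∈ (lin C).filter (fun l => M.On e.1 l ∧ M.On e.2 l), M.On x l ∧ l.1 < k + 1 := by
      intro l hl
      rw [Finset.mem_filter] at hl
      rcases he with ⟨h1, h2⟩ | ⟨h1, h2⟩
      · exact ⟨h1 ▸ hl.2.1, hlev _ h2 l hl.1 hl.2.2⟩
      · exact ⟨h1 ▸ hl.2.2, hlev _ h2 l hl.1 hl.2.1⟩
    have h2 : Set.InjOn Prod.fst (↑((lin C).filter (fun l => M.On e.1 l ∧ M.On e.2 l)) : Set (ℕ × List ℕ)) := by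
      intro l hl l' hl' h
      exact Str.nl_unique (hnl l.1) (Finset.mem_filter.1 (Finset.mem_coe.1 hl)).1 rfl
        (h1 l (Finset.mem_coe.1 hl)).1 (Finset.mem_filter.1 (Finset.mem_coe.1 hl')).1 h.symm
        (h1 l' (Finset.mem_coe.1 hl')).1
    have h3 := w_levels (((lin C).filter (fun l => M.On e.1 l ∧ M.On e.2 l)).image Prod.fst) (k + 1)
      (by
        intro i hi
        obtain ⟨l, hl, rfl⟩ := Finset.mem_image.1 hi
        exact (h1 l hl).2)
    rwa [Finset.sum_image h2] at h3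
  -- the new edges
  have hned : ∀ e ∈ M.ned C {x}, (e.1 = x ∧ e.2 ∈ C) ∨ (e.2 = x ∧ e.1 ∈ C) := by
    intro e he
    unfold Str.ned at he
    rw [Finset.mem_filter, Str.mem_ed, Str.mem_ed, Finset.mem_union, Finset.mem_union,
      Finset.mem_singleton, Finset.mem_singleton] at he
    obtain ⟨⟨h1, h2, h3⟩, h4, -⟩ := he
    rcases h1 with h1 | h1
    · rcases h2 with h2 | h2
      · exact absurd ⟨h1, h2, h3⟩ h4
      · exact Or.inr ⟨h2, h1⟩
    · rcases h2 with h2 | h2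
      · exact Or.inl ⟨h1, h2⟩
      · exact absurd (h1.trans h2.symm) h3.2.2.1
  have hcard : 2 * n ≤ (M.ned C {x}).card := by
    have hbC : ∀ i < n, ψ (VX.b i) ∈ C := fun i hi =>
      Finset.mem_image_of_mem ψ (mem_LB.2 (Or.inr ⟨i, Finset.mem_range.2 hi, rfl⟩))
    have hmem : ∀ i < n, (x, ψ (VX.b i)) ∈ M.ned C {x} ∧ (ψ (VX.b i), x) ∈ M.ned C {x} := by
      intro i hi
      unfold Str.ned
      simp only [Finset.mem_filter, Str.mem_ed, Finset.mem_union, Finset.mem_singleton]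
      refine ⟨⟨⟨Or.inr trivial, Or.inl (hbC i hi), hR i hi⟩, fun h => hxC h.1, fun h => ?_⟩,
        ⟨⟨Or.inl (hbC i hi), Or.inr trivial, (hR i hi).symm⟩, fun h => hxC h.2.1, fun h => ?_⟩⟩
      · exact hxC (h.2.1 ▸ hbC i hi)
      · exact hxC (h.1 ▸ hbC i hi)
    have hsub : (Finset.range n).image (fun i => (x, ψ (VX.b i))) ∪
        (Finset.range n).image (fun i => (ψ (VX.b i), x)) ⊆ M.ned C {x} := by
      intro e he
      rcases Finset.mem_union.1 he with h | h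
      · obtain ⟨i, hi, rfl⟩ := Finset.mem_image.1 h
        exact (hmem i (Finset.mem_range.1 hi)).1
      · obtain ⟨i, hi, rfl⟩ := Finset.mem_image.1 h
        exact (hmem i (Finset.mem_range.1 hi)).2
    have hψinj : ∀ i < n, ∀ j < n, ψ (VX.b i) = ψ (VX.b j) → i = j := by
      intro i hi j hj h
      have := hemb.inj _ (mem_LB.2 (Or.inr ⟨i, Finset.mem_range.2 hi, rfl⟩)) _
        (mem_LB.2 (Or.inr ⟨j, Finset.mem_range.2 hj, rfl⟩)) h
      injection this
    have h1 : ((Finset.range n).image (fun i => (x, ψ (VX.b i)))).card = n := by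
      rw [Finset.card_image_of_injOn, Finset.card_range]
      intro i hi j hj h
      simp only [Prod.mk.injEq, true_and] at h
      exact hψinj i (Finset.mem_range.1 (Finset.mem_coe.1 hi)) j (Finset.mem_range.1 (Finset.mem_coe.1 hj)) h
    have h2 : ((Finset.range n).image (fun i => (ψ (VX.b i), x))).card = n := by
      rw [Finset.card_image_of_injOn, Finset.card_range]
      intro i hi j hj h
      simp only [Prod.mk.injEq, and_true] at h
      exact hψinj i (Finset.mem_range.1 (Finset.mem_coe.1 hi)) j (Finset.mem_range.1 (Finset.mem_coe.1 hj)) h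
    have h3 : Disjoint ((Finset.range n).image (fun i => (x, ψ (VX.b i))))
        ((Finset.range n).image (fun i => (ψ (VX.b i), x))) := by
      rw [Finset.disjoint_left]
      intro e he he'
      obtain ⟨i, hi, rfl⟩ := Finset.mem_image.1 he
      obtain ⟨j, hj, h⟩ := Finset.mem_image.1 he'
      simp only [Prod.mk.injEq] at h
      exact hxC (h.1 ▸ hbC j (Finset.mem_range.1 hj))
    have h4 := Finset.card_le_card hsub
    rw [Finset.card_union_of_disjoint h3, h1, h2] at h4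
    omega
  -- the new flags
  have hnfl : ∑ p ∈ M.nfl C {x}, q (p.2.1 + 1) ≤ (w 0 - w (k + 1)) * (M.ned C {x}).card := by
    have h1 : M.nfl C {x} ⊆ (M.ned C {x} ×ˢ lin C).filter
        (fun p => M.On p.1.1 p.2 ∧ M.On p.1.2 p.2) := by
      rintro ⟨e, l⟩ he
      unfold Str.nfl at he
      rw [Finset.mem_filter, Str.mem_fl, Str.mem_fl] at he
      obtain ⟨⟨h1, h2, h3, h4⟩, h5, -⟩ := he
      have h6 := hlin _ l h2 h3
      rw [Finset.mem_filter, Finset.mem_product]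
      refine ⟨⟨?_, h6⟩, h3, h4⟩
      unfold Str.ned
      rw [Finset.mem_filter]
      refine ⟨h1, fun h => h5 ⟨h, h6, h3, h4⟩, fun h => ?_⟩
      rw [Str.mem_ed, Finset.mem_singleton, Finset.mem_singleton] at h
      exact h.2.2.2.2.1 (h.1.trans h.2.1.symm)
    refine (Finset.sum_le_sum_of_subset_of_nonneg h1 fun p _ _ => (q_pos _).le).trans ?_
    rw [Finset.sum_filter, Finset.sum_product]
    calc ∑ e ∈ M.ned C {x}, ∑ l ∈ lin C, (if M.On e.1 l ∧ M.On e.2 l then q (l.1 + 1) else 0)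
        ≤ ∑ _e ∈ M.ned C {x}, (w 0 - w (k + 1)) := by
          refine Finset.sum_le_sum fun e he => ?_
          rw [← Finset.sum_filter]
          exact hsum e (hned e he)
      _ = (w 0 - w (k + 1)) * (M.ned C {x}).card := by
          rw [Finset.sum_const, nsmul_eq_mul, mul_comm]
  have hdl : M.dl (C ∪ {x}) < M.dl C := by
    have h1 := hCa.incl M C {x}
    have h2 : C ∩ {x} = ∅ := by
      rw [Finset.inter_singleton_of_notMem hxC]
    rw [h2, Str.dl_empty, dl_single] at h1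
    have h3 : 0 ≤ ∑ p ∈ M.nic C {x}, a p.2.1 := Finset.sum_nonneg fun p _ => (a_pos _).le
    have h4 : (2 * n : ℝ) ≤ (M.ned C {x}).card := by exact_mod_cast hcard
    have h5 := wt_le
    have h6 := w_pos (k + 1)
    have h7 : w (k + 1) * (2 * n) ≤ w (k + 1) * (M.ned C {x}).card := mul_le_mul_of_nonneg_left h4 h6.le
    nlinarith
  -- the hull
  obtain ⟨D, hD1, hD2⟩ := hM.fin (C ∪ {x}) (by
    intro y hy
    rcases Finset.mem_union.1 (Finset.mem_coe.1 hy) with h | h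
    · exact hCl.sub (Finset.mem_coe.2 h)
    · rw [Finset.mem_singleton.1 h]; exact hx)
  obtain ⟨X, hX1, hX2, -, -⟩ := hH.hull (G := M) (Z := Ω) (H := C ∪ {x}) (C := D) hM.k.c1 hD2.1 hD1 (by
    intro l hl hne
    rcases Nat.eq_zero_or_pos (M.pts l (C ∪ {x})).card with h0 | h0
    · rw [h0]; exact Nat.zero_le _
    · obtain ⟨p, hp⟩ := Finset.card_pos.1 h0
      rw [Str.mem_pts] at hp
      obtain ⟨y, hy, hyC⟩ := hne
      have h1 := hCl.1.pts_lt hl ⟨y, hy, fun h => hyC (Finset.mem_union_left _ h)⟩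
      rw [Str.pts_union]
      have h2 := Finset.card_union_le (M.pts l C) (M.pts l {x})
      have h3 : (M.pts l {x}).card ≤ 1 := by
        have := Finset.card_filter_le ({x} : Finset ℕ) fun p => M.On p l
        rw [Finset.card_singleton] at this
        exact this
      omega)
  have h1 : M.dl X ≤ M.dl (C ∪ {x}) := by
    rcases hX2 with rfl | h
    · exact le_rfl
    · exact h.le
  have h2 : C ⊂ X := by
    refine ⟨Finset.subset_union_left.trans hX1.2.1, fun h => hxC (h (hX1.2.1 ?_))⟩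
    exact Finset.mem_union_right _ (Finset.mem_singleton_self x)
  have h3 := hCl.2 X hX1.1 h2
  linarith

theorem EX : S_EMB → S_CALC → S_HULL → S_CLO → S_EX := by
  intro hE hCa hH hC M Ω hM k
  obtain ⟨ψ, hψ⟩ := exists_seq hE hC hM k
  have hΩ : ∀ (F : Finset ℕ), ∀ v ∈ LB k F, ψ v ∈ Ω := fun F v hv =>
    (cl_F hE hC hM hψ F).sub (Finset.mem_coe.2 (Finset.mem_image_of_mem ψ hv))
  refine ⟨fun i => ψ (VX.b i), fun i => hΩ {i} _ (mem_LB.2 (Or.inr ⟨i, by simp, rfl⟩)),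
    fun r σ τ hσ hτ => sim hE hC hM hψ σ τ hσ hτ, ?_, ?_⟩
  · obtain ⟨n, hn⟩ := exists_nat_gt (1 / w (k + 1))
    have hw := w_pos (k + 1)
    have h1 : 1 < w (k + 1) * n := by
      rw [div_lt_iff₀ hw] at hn
      linarith
    have hn1 : 1 ≤ n := by
      rcases Nat.eq_zero_or_pos n with rfl | h
      · simp at h1; linarith
      · exact h
    refine ⟨Finset.range n, ?_⟩
    rintro ⟨x, hx, hR⟩
    refine no_star hE hCa hH hC hM hψ n hn1 (by nlinarith) x hx fun i hi => hR i (Finset.mem_range.2 hi)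
  · refine ⟨Finset.range k, Finset.card_range k, ?_⟩
    obtain ⟨ψ', h1, h2, h3⟩ := hM.rich VX (HS k) (LB k (Finset.range k))
      (insert VX.x (LB k (Finset.range k))) (cls _) cl_star ψ (hψ k).1 (hψ k).2
    refine ⟨ψ' VX.x, h3.sub (Finset.mem_coe.2 (Finset.mem_image_of_mem ψ' (Finset.mem_insert_self _ _))), ?_⟩
    intro i hi
    have hb : VX.b i ∈ LB k (Finset.range k) := mem_LB.2 (Or.inr ⟨i, hi, rfl⟩)
    show M.R (ψ' VX.x) (ψ (VX.b i))
    rw [← h2 _ hb, h1.R _ (Finset.mem_insert_self _ _) _ (Finset.mem_insert_of_mem hb), R_iff]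
    exact Or.inl ⟨rfl, i, Finset.mem_range.1 hi, rfl⟩

end Run7.h228.LW
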